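import Mathlib
import Pool.Agent.Helper180.Final
import Pool.Agent.Y617.MO.Red

/-!
# Groups acting freely on `Λ`-trees: hereditary undecidability

Stronger form of `Undecidable`. There is one group `J` acting freely on a `Λ`-tree such that every
set of sentences which contains the sentences true in all groups and whose members are true in `J`
is undecidable; every recursively enumerable set is many-one reducible to it. This applies to the
elementary theory of every class of groups containing `J`, for instance of the class of all groups
that act freely on some `Λ`-tree.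
-/

set_option autoImplicit false

namespace Pool.Agent.Results.MP_32acdc_lc.HereditarilyUndecidable

open Pool.Agent.Helper180.Defs Pool.Agent.Helper180.Words Pool.Agent.Helper180.Sound
open Pool.Agent.Helper180.Final Nat.Partrec Nat.Partrec.Code

/-- The set of the Goedel numbers of the members of a set of formulas. -/
def Codes (T : Set Formula) (n : ℕ) : Prop := ∃ φ ∈ T, φ.code = n

theorem reducible (T : Set Formula)
    (h1 : ∀ φ : Formula, φ.free = ∅ → (∀ (G : Type) [Group G] (v : ℕ → G), φ.Holds v) → φ ∈ T)
    (h2 : ∀ φ ∈ T, ∀ v : ℕ → GJ JE, φ.Holds v) (S : ℕ → Prop) (hS : REPred S) :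
    ManyOneReducible S (Codes T) := by
  obtain ⟨c, hc, hcS⟩ := Pool.Agent.Y617.MO.exists_codes hS
  refine ⟨fun n => (psi (encodeCode (c n))).code, ?_, fun n => ?_⟩
  · have h3 : Computable (fun n => Encodable.encode (c n)) := Computable.encode.comp hc
    have h4 : Computable (fun n : ℕ => (psi n).code) :=
      (primrec_mk Pool.Agent.Helper180.Logic.axF haltF).to_comp
    have h5 := h4.comp h3
    rwa [encodeCode_eq] at h5
  · rw [← hcS]
    constructor
    · intro h
      obtain ⟨m, hm⟩ := Part.dom_iff_mem.1 h
      exact ⟨_, h1 _ (free_psi _) fun G _ v => psi_of_halts hm v, rfl⟩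
    · rintro ⟨φ, hφ, e⟩
      obtain rfl := code_injective _ _ e
      exact halts_of_psi (fun _ => 1) (h2 _ hφ _)

theorem not_decidable {T : Set Formula}
    (h : ∀ S : ℕ → Prop, REPred S → ManyOneReducible S (Codes T)) : ¬ IsDecidable T := by
  intro hd
  apply ComputablePred.halting_problem 0
  have h1 : REPred fun n : ℕ => (eval (Denumerable.ofNat Code n) 0).Dom :=
    (eval_part.comp (Computable.ofNat Code) (Computable.const 0)).dom_re
  have h2 := ComputablePred.computable_of_manyOneReducible (h _ h1) hd
  have h3 : ManyOneReducible (fun c : Code => (eval c 0).Dom)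
      (fun n : ℕ => (eval (Denumerable.ofNat Code n) 0).Dom) :=
    ⟨Encodable.encode, Computable.encode, fun c => by simp [Denumerable.ofNat_encode]⟩
  exact ComputablePred.computable_of_manyOneReducible h3 h2

/-- There is a group `J` acting freely on some `Λ`-tree such that for every set `T` of formulas which
contains all sentences that are true in all groups and whose members are true in `J`, every
recursively enumerable set is many-one reducible to `T`, and so `T` is undecidable. In particular
this holds for the elementary theory of the class of all groups that act freely on some `Λ`-tree. -/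
theorem result :
    (∃ (J : Type) (_ : Group J), TreeFree J ∧ ∀ T : Set Formula,
      (∀ φ : Formula, φ.free = ∅ → (∀ (G : Type) [Group G] (v : ℕ → G), φ.Holds v) → φ ∈ T) →
      (∀ φ ∈ T, ∀ v : ℕ → J, φ.Holds v) →
      (∀ S : ℕ → Prop, REPred S → ManyOneReducible S (Codes T)) ∧ ¬ IsDecidable T) ∧
    (∀ S : ℕ → Prop, REPred S → ManyOneReducible S (Codes theoryTreeFree)) ∧
    ¬ IsDecidable theoryTreeFree := by
  have h : ∀ T : Set Formula,
      (∀ φ : Formula, φ.free = ∅ → (∀ (G : Type) [Group G] (v : ℕ → G), φ.Holds v) → φ ∈ T) →
      (∀ φ ∈ T, ∀ v : ℕ → GJ JE, φ.Holds v) →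
      (∀ S : ℕ → Prop, REPred S → ManyOneReducible S (Codes T)) ∧ ¬ IsDecidable T :=
    fun T h1 h2 => ⟨reducible T h1 h2, not_decidable (reducible T h1 h2)⟩
  exact ⟨⟨GJ JE, inferInstance, treeFree_GJ JE, h⟩, h theoryTreeFree
    (fun φ hφ hG => ⟨hφ, fun G _ _ v => hG G v⟩) (fun φ hφ v => hφ.2 _ (treeFree_GJ JE) v)⟩

end Pool.Agent.Results.MP_32acdc_lc.HereditarilyUndecidable
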